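import Pool.Agent.K1H25.ST.Enc

/-! Classes, thresholds, tails. -/

set_option autoImplicit false

noncomputable section

namespace Pool.Agent.K1H25.ST

open Finset hiding box
open Pool.Agent.K1H64.ST

variable {d M : ℕ} {A : Finset (Cube d)}

/-- The maximum of `η` and `ζ`. -/
def Psi (P : Pot d A) (M : ℕ) (x : Fin d → ℤ) : ℝ := max (P.eta M x) (P.zeta M (P.T x))

/-- The class. -/
def clx (P : Pot d A) (M : ℕ) (u : ℕ → ℝ) (cm : ℕ) (x : Fin d → ℤ) : ℕ :=
  ((Finset.Icc 1 cm).filter (fun c => u c ≤ Psi P M x)).card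

theorem clx_le (P : Pot d A) (u : ℕ → ℝ) (cm : ℕ) (x : Fin d → ℤ) : clx P M u cm x ≤ cm := by
  unfold clx
  refine (card_filter_le _ _).trans ?_
  simp

theorem le_clx (P : Pot d A) (u : ℕ → ℝ) (hu : Monotone u) (cm : ℕ) (x : Fin d → ℤ) {c : ℕ}
    (h1 : 1 ≤ c) (h2 : c ≤ cm) : c ≤ clx P M u cm x ↔ u c ≤ Psi P M x := by
  constructor
  · intro h
    by_contra hlt
    rw [not_le] at hlt
    have hsub : (Finset.Icc 1 cm).filter (fun c => u c ≤ Psi P M x) ⊆ Finset.Icc 1 (c - 1) := by
      intro k hk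
      rw [mem_filter, mem_Icc] at hk
      rw [mem_Icc]
      refine ⟨hk.1.1, ?_⟩
      by_contra hk2
      have : c ≤ k := by omega
      have := hu this
      linarith [hk.2]
    have := card_le_card hsub
    unfold clx at h
    simp only [Nat.card_Icc] at this
    omega
  · intro h
    have hsub : Finset.Icc 1 c ⊆ (Finset.Icc 1 cm).filter (fun c => u c ≤ Psi P M x) := by
      intro k hk
      rw [mem_Icc] at hk
      rw [mem_filter, mem_Icc]
      exact ⟨⟨hk.1, hk.2.trans h2⟩, (hu hk.2).trans h⟩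
    have := card_le_card hsub
    unfold clx
    simpa using this

/-- Number of straddling pairs. -/
def Str (P : Pot d A) (M : ℕ) (u : ℝ) : ℝ :=
  ∑ i : Fin d, (((grid d M).filter (fun x => ¬ (u ≤ Psi P M x ↔ u ≤ Psi P M (flipS {i} x)))).card : ℝ)

theorem Str_nonneg (P : Pot d A) (M : ℕ) (u : ℝ) : 0 ≤ Str P M u :=
  sum_nonneg fun _ _ => Nat.cast_nonneg _

theorem thr_bd (hTHR : S_THR) (P : Pot d A) (U B1 B2 : ℝ) (hU : 0 < U)
    (h1 : ∑ i : Fin d, ∑ x ∈ grid d M, |clip U (P.eta M x) - clip U (P.eta M (flipS {i} x))| ≤ B1)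
    (h2 : ∑ i : Fin d, ∑ x ∈ grid d M,
      |clip U (P.zeta M (P.T x)) - clip U (P.zeta M (P.T (flipS {i} x)))| ≤ B2) :
    ∃ u, U ≤ u ∧ u ≤ 2 * U ∧ U * Str P M u ≤ B1 + B2 := by
  obtain ⟨u, hu1, hu2, hu3⟩ := hTHR (Bool × Fin d × (Fin d → ℤ)) (univ ×ˢ (univ ×ˢ grid d M))
    (fun k => if k.1 then P.eta M k.2.2 else P.zeta M (P.T k.2.2))
    (fun k => if k.1 then P.eta M (flipS {k.2.1} k.2.2) else P.zeta M (P.T (flipS {k.2.1} k.2.2)))
    U hU
  refine ⟨u, hu1, hu2, ?_⟩
  have hR : ∑ k ∈ (univ : Finset Bool) ×ˢ ((univ : Finset (Fin d)) ×ˢ grid d M),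
      |clip U (if k.1 then P.eta M k.2.2 else P.zeta M (P.T k.2.2)) -
        clip U (if k.1 then P.eta M (flipS {k.2.1} k.2.2) else
          P.zeta M (P.T (flipS {k.2.1} k.2.2)))| ≤ B1 + B2 := by
    rw [sum_product]
    simp only [Fintype.sum_bool, sum_product]
    simp only [if_true, Bool.false_eq_true, if_false]
    exact add_le_add h1 h2
  refine le_trans ?_ (hu3.trans hR)
  apply mul_le_mul_of_nonneg_left _ hU.le
  rw [Finset.natCast_card_filter, sum_product]
  simp only [Fintype.sum_bool, sum_product]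
  simp only [if_true, Bool.false_eq_true, if_false]
  unfold Str
  simp only [Finset.natCast_card_filter]
  rw [← sum_add_distrib]
  apply sum_le_sum
  intro i _
  rw [← sum_add_distrib]
  apply sum_le_sum
  intro x _
  by_cases he : (u ≤ P.eta M x ↔ u ≤ P.eta M (flipS {i} x))
  · by_cases hz : (u ≤ P.zeta M (P.T x) ↔ u ≤ P.zeta M (P.T (flipS {i} x)))
    · have : (u ≤ Psi P M x ↔ u ≤ Psi P M (flipS {i} x)) := by
        unfold Psi
        rw [le_max_iff, le_max_iff, he, hz]
      rw [if_neg (not_not.2 this)]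
      positivity
    · rw [if_pos hz]
      split_ifs <;> norm_num
  · rw [if_pos he]
    split_ifs <;> norm_num

/-- Exponential tail. -/
theorem tail_bd (P : Pot d A) (C : ℝ)
    (h1 : ∑ x ∈ grid d M, Real.exp (P.eta M x / 4) ≤ C * (2 * M) ^ d)
    (h2 : ∑ x ∈ grid d M, Real.exp (P.zeta M (P.T x) / 4) ≤ C * (2 * M) ^ d) (u : ℝ) :
    (((grid d M).filter (fun x => u ≤ Psi P M x)).card : ℝ) ≤
      2 * C * Real.exp (-u / 4) * (2 * M) ^ d := by
  rw [Finset.natCast_card_filter]
  calc ∑ x ∈ grid d M, (if u ≤ Psi P M x then (1 : ℝ) else 0)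
      ≤ ∑ x ∈ grid d M, Real.exp (-u / 4) * (Real.exp (P.eta M x / 4) +
          Real.exp (P.zeta M (P.T x) / 4)) := by
        apply sum_le_sum
        intro x _
        split_ifs with h
        · unfold Psi at h
          rw [le_max_iff] at h
          rw [mul_add, ← Real.exp_add, ← Real.exp_add]
          rcases h with h | h
          · have h3 : (1 : ℝ) ≤ Real.exp (-u / 4 + P.eta M x / 4) := by
              apply Real.one_le_exp
              linarith
            have h4 := Real.exp_pos (-u / 4 + P.zeta M (P.T x) / 4)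
            linarith
          · have h3 : (1 : ℝ) ≤ Real.exp (-u / 4 + P.zeta M (P.T x) / 4) := by
              apply Real.one_le_exp
              linarith
            have h4 := Real.exp_pos (-u / 4 + P.eta M x / 4)
            linarith
        · positivity
    _ ≤ 2 * C * Real.exp (-u / 4) * (2 * M) ^ d := by
        rw [← mul_sum, sum_add_distrib]
        have := Real.exp_pos (-u / 4)
        nlinarith

/-- `e^{-y/4} ≤ 32 / y^2`. -/
theorem exp_bd (y : ℝ) (hy : 0 < y) : Real.exp (-y / 4) ≤ 32 / y ^ 2 := by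
  rw [show -y / 4 = -(y / 4) by ring, Real.exp_neg]
  have h := Real.quadratic_le_exp_of_nonneg (x := y / 4) (by positivity)
  rw [inv_eq_one_div, div_le_div_iff₀ (Real.exp_pos _) (by positivity)]
  nlinarith

/-- The cost. -/
theorem cost_eq (P : Pot d A) (M : ℕ) (x : Fin d → ℤ) :
    P.cost M x = P.eta M x + P.zeta M (P.T x) := by
  unfold Pot.cost Pot.eta Pot.zeta Pot.D
  have h : (((∑ l, |x l| : ℤ) : ℝ) - (dot (P.T x) x : ℝ)) =
      2 * ∑ l ∈ univ.filter (fun l => sn (P.T x l) * x l < 0), (|x l| : ℝ) := by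
    rw [sum_filter, mul_sum]
    unfold dot
    push_cast
    rw [← sum_sub_distrib]
    apply sum_congr rfl
    intro l _
    cases P.T x l
    · rw [show sn false = -1 from rfl]
      split_ifs with h
      · have h1 : (0 : ℝ) < x l := by
          have : 0 < x l := by simpa using h
          exact_mod_cast this
        rw [abs_of_pos h1]
        push_cast
        ring
      · have h1 : (x l : ℝ) ≤ 0 := by
          have : x l ≤ 0 := by simpa using h
          exact_mod_cast this
        rw [abs_of_nonpos h1]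
        push_cast
        ring
    · rw [show sn true = 1 from rfl]
      split_ifs with h
      · have h1 : (x l : ℝ) < 0 := by
          have : x l < 0 := by simpa using h
          exact_mod_cast this
        rw [abs_of_neg h1]
        push_cast
        ring
      · have h1 : 0 ≤ (x l : ℝ) := by
          have : 0 ≤ x l := by simpa using h
          exact_mod_cast this
        rw [abs_of_nonneg h1]
        push_cast
        ring
  rw [← add_div]
  rw [show (((∑ l, |x l| : ℤ) : ℝ) - ((dot (P.T x) x : ℝ) - P.c (P.T x))) + -P.c (P.T x) =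
    (((∑ l, |x l| : ℤ) : ℝ) - (dot (P.T x) x : ℝ)) by ring, h]
  rw [mul_div_mul_left _ _ (by norm_num)]

theorem cost_le (P : Pot d A) (M : ℕ) (x : Fin d → ℤ) : P.cost M x ≤ 2 * Psi P M x := by
  rw [cost_eq]
  unfold Psi
  have h1 := le_max_left (P.eta M x) (P.zeta M (P.T x))
  have h2 := le_max_right (P.eta M x) (P.zeta M (P.T x))
  linarith

/-- The size of `D`. -/
theorem card_D_le (P : Pot d A) (hM : 1 ≤ M) (x : Fin d → ℤ) (τ : ℝ) (hτ : 0 < τ) :
    ((P.D x).card : ℝ) ≤ ((univ.filter (fun l => (|x l| : ℝ) ≤ 2 * τ * M)).card : ℝ) +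
      P.cost M x / (2 * τ) := by
  have hM0 : (0 : ℝ) < M := by exact_mod_cast hM
  unfold Pot.cost
  have h1 : ((P.D x).card : ℝ) ≤ ∑ l ∈ P.D x, ((if (|x l| : ℝ) ≤ 2 * τ * M then (1 : ℝ) else 0) +
      (|x l| : ℝ) / (2 * τ * M)) := by
    rw [card_eq_sum_ones]
    push_cast
    apply sum_le_sum
    intro l _
    split_ifs with h
    · have : 0 ≤ (|x l| : ℝ) / (2 * τ * M) := by positivity
      linarith
    · rw [not_le] at h
      rw [zero_add, le_div_iff₀ (by positivity)]
      linarith
  refine h1.trans ?_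
  rw [sum_add_distrib]
  apply add_le_add
  · rw [Finset.natCast_card_filter]
    apply sum_le_sum_of_subset_of_nonneg (subset_univ _)
    intro i _ _
    split_ifs <;> norm_num
  · rw [← sum_div, div_div]
    apply le_of_eq
    congr 1
    ring

/-- Markov for the number of small coordinates. -/
theorem small_bd (hS : S_SMALL) (hM : 1 ≤ M) (y : ℝ) (τ : ℝ) (hτ : 1 / M ≤ τ) (hy : τ * d ≤ y)
    (hy0 : 0 ≤ y) :
    (((grid d M).filter (fun x => 4 * y <
      ((univ.filter (fun l => (|x l| : ℝ) ≤ 2 * τ * M)).card : ℝ))).card : ℝ) ≤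
      Real.exp (- y * Real.log 2) * (2 * M) ^ d := by
  have h := hS d M hM τ hτ
  rw [Finset.natCast_card_filter]
  calc ∑ x ∈ grid d M, (if 4 * y < ((univ.filter (fun l => (|x l| : ℝ) ≤ 2 * τ * M)).card : ℝ)
        then (1 : ℝ) else 0)
      ≤ ∑ x ∈ grid d M, Real.exp (- (4 * y) * Real.log 2) *
        (2 : ℝ) ^ ((univ.filter (fun l => (|x l| : ℝ) ≤ 2 * τ * M)).card) := by
        apply sum_le_sum
        intro x _
        set Z := (univ.filter (fun l => (|x l| : ℝ) ≤ 2 * τ * M)).card
        have h2 : (2 : ℝ) ^ Z = Real.exp (Z * Real.log 2) := by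
          rw [mul_comm, Real.exp_mul, Real.exp_log (by norm_num), Real.rpow_natCast]
        split_ifs with hlt
        · rw [h2, ← Real.exp_add]
          apply Real.one_le_exp
          have := Real.log_pos (by norm_num : (1 : ℝ) < 2)
          nlinarith
        · positivity
    _ ≤ Real.exp (- (4 * y) * Real.log 2) * (Real.exp (2 * τ * d) * (2 * M) ^ d) := by
        rw [← mul_sum]
        exact mul_le_mul_of_nonneg_left h (Real.exp_pos _).le
    _ ≤ Real.exp (- y * Real.log 2) * (2 * M) ^ d := by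
        rw [← mul_assoc, ← Real.exp_add]
        apply mul_le_mul_of_nonneg_right _ (by positivity)
        apply Real.exp_le_exp.2
        have := Real.log_two_gt_d9
        nlinarith

end Pool.Agent.K1H25.ST
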