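import Pool.Agent.K1H37.ST.Grid
import Pool.Agent.K1H9.ST.Col

/-! Encoding of the grid of dimension `n + 1` by the cube of dimension `n` and seeds. -/

set_option autoImplicit false

noncomputable section

namespace Pool.Agent.K1H25.ST

open Finset hiding box
open Pool.Agent.K1H64.ST

variable {n M N : ℕ}

/-- Seeds. -/
abbrev Seed (n M : ℕ) := Bool × (Fin (n + 1) → Fin M)

theorem card_seed (n M : ℕ) : Fintype.card (Seed n M) = 2 * M ^ (n + 1) := by
  simp [Seed]

theorem pt_mem (s : Cube n) (r : Fin n → Fin M) : pt s r ∈ grid n M := by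
  rw [K1H37.ST.mem_grid]
  intro i
  rw [K1H37.ST.mem_box]
  have h := (r i).isLt
  unfold pt
  cases s i
  · simp only [sn]
    refine ⟨⟨by simp; omega, by simp; omega⟩, ⟨- ((r i : ℕ) : ℤ) - 1, by simp; ring⟩⟩
  · simp only [sn]
    refine ⟨⟨by simp; omega, by simp; omega⟩, ⟨((r i : ℕ) : ℤ), by simp⟩⟩

theorem pt_inj {s s' : Cube n} {r r' : Fin n → Fin M} (h : pt s r = pt s' r') : s = s' ∧ r = r' := by
  have key : ∀ i, s i = s' i ∧ r i = r' i := by
    intro i
    have hi := congrFun h i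
    unfold pt at hi
    cases h1 : s i <;> cases h2 : s' i <;> rw [h1, h2] at hi <;> simp [sn] at hi ⊢
    · exact Fin.ext (by omega)
    · omega
    · omega
    · exact Fin.ext (by omega)
  exact ⟨funext fun i => (key i).1, funext fun i => (key i).2⟩

theorem pt_surj {x : Fin n → ℤ} (hx : x ∈ grid n M) : ∃ (s : Cube n) (r : Fin n → Fin M), pt s r = x := by
  rw [K1H37.ST.mem_grid] at hx
  have h1 : ∀ i, ∃ (b : Bool) (k : Fin M), sn b * (2 * ((k : ℕ) : ℤ) + 1) = x i := by
    intro i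
    have := hx i
    rw [K1H37.ST.mem_box] at this
    obtain ⟨⟨ha, hb⟩, ⟨k, hk⟩⟩ := this
    by_cases hk0 : 0 ≤ k
    · refine ⟨true, ⟨k.toNat, by omega⟩, ?_⟩
      simp only [sn]
      simp
      omega
    · refine ⟨false, ⟨(-k - 1).toNat, by omega⟩, ?_⟩
      simp only [sn]
      simp
      omega
  choose b k hbk using h1
  exact ⟨b, k, funext fun i => hbk i⟩

/-- The bijection between positions with seeds and the signs with magnitudes. -/
def phi (e : Fin N ≃ Seed n M) : Cube n × Fin N ≃ Cube (n + 1) × (Fin (n + 1) → Fin M) where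
  toFun q := (Fin.cons (e q.2).1 q.1, (e q.2).2)
  invFun p := (Fin.tail p.1, e.symm (p.1 0, p.2))
  left_inv q := by
    ext1
    · simp
    · simp
  right_inv p := by
    simp

/-- The grid point. -/
def X (e : Fin N ≃ Seed n M) (s : Cube n) (ω : Fin N) : Fin (n + 1) → ℤ :=
  pt (Fin.cons (e ω).1 s : Cube (n + 1)) (e ω).2

theorem X_eq (e : Fin N ≃ Seed n M) (s : Cube n) (ω : Fin N) :
    X e s ω = pt (phi e (s, ω)).1 (phi e (s, ω)).2 := rfl

theorem X_mem (e : Fin N ≃ Seed n M) (s : Cube n) (ω : Fin N) : X e s ω ∈ grid (n + 1) M := pt_mem _ _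

theorem X_inj (e : Fin N ≃ Seed n M) {s s' : Cube n} {ω ω' : Fin N} (h : X e s ω = X e s' ω') :
    s = s' ∧ ω = ω' := by
  rw [X_eq, X_eq] at h
  have h2 := pt_inj h
  have h3 : phi e (s, ω) = phi e (s', ω') := Prod.ext h2.1 h2.2
  have h4 := (phi e).injective h3
  exact ⟨congrArg Prod.fst h4, congrArg Prod.snd h4⟩

theorem X_surj (e : Fin N ≃ Seed n M) {x : Fin (n + 1) → ℤ} (hx : x ∈ grid (n + 1) M) :
    ∃ (s : Cube n) (ω : Fin N), X e s ω = x := by
  obtain ⟨s, r, h⟩ := pt_surj hx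
  refine ⟨((phi e).symm (s, r)).1, ((phi e).symm (s, r)).2, ?_⟩
  rw [X_eq]
  simp [h]

theorem card_X (e : Fin N ≃ Seed n M) (p : (Fin (n + 1) → ℤ) → Prop) [DecidablePred p]
    (p' : Cube n × Fin N → Prop) [DecidablePred p'] (h : ∀ q, p' q ↔ p (X e q.1 q.2)) :
    (univ.filter p').card = ((grid (n + 1) M).filter p).card := by
  apply card_bij (fun q _ => X e q.1 q.2)
  · intro q hq
    rw [mem_filter] at hq ⊢
    exact ⟨X_mem e _ _, (h q).1 hq.2⟩
  · intro q _ q' _ hqq
    have := X_inj e hqq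
    exact Prod.ext this.1 this.2
  · intro x hx
    rw [mem_filter] at hx
    obtain ⟨s, ω, hs⟩ := X_surj e hx.1
    refine ⟨(s, ω), ?_, hs⟩
    rw [mem_filter]
    refine ⟨mem_univ _, (h _).2 ?_⟩
    rw [hs]
    exact hx.2

theorem card_X_le (e : Fin N ≃ Seed n M) (p : (Fin (n + 1) → ℤ) → Prop) [DecidablePred p]
    (p' : Cube n × Fin N → Prop) [DecidablePred p'] (h : ∀ q, p' q → p (X e q.1 q.2)) :
    (univ.filter p').card ≤ ((grid (n + 1) M).filter p).card := by
  apply card_le_card_of_injOn (fun q => X e q.1 q.2)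
  · intro q hq
    have hq' := (mem_filter.1 hq).2
    exact mem_filter.2 ⟨X_mem e _ _, h q hq'⟩
  · intro q _ q' _ hqq
    have := X_inj e hqq
    exact Prod.ext this.1 this.2

theorem sum_X (e : Fin N ≃ Seed n M) (f : (Fin (n + 1) → ℤ) → ℝ) :
    ∑ x ∈ grid (n + 1) M, f x = ∑ s : Cube n, ∑ ω : Fin N, f (X e s ω) := by
  rw [← Fintype.sum_prod_type' (f := fun s ω => f (X e s ω))]
  symm
  apply sum_bij (fun q _ => X e q.1 q.2)
  · intro q _
    exact X_mem e _ _
  · intro q _ q' _ hqq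
    have := X_inj e hqq
    exact Prod.ext this.1 this.2
  · intro x hx
    obtain ⟨s, ω, hs⟩ := X_surj e hx
    exact ⟨(s, ω), mem_univ _, hs⟩
  · intro q _
    rfl

/-- Flips of the position. -/
theorem X_flip (e : Fin N ≃ Seed n M) (S : Finset (Fin n)) (s : Cube n) (ω : Fin N) :
    X e (flipV S s) ω = flipS (S.map (Fin.succEmb n)) (X e s ω) := by
  funext l
  unfold X flipS pt
  refine Fin.cases ?_ (fun i => ?_) l
  · simp
  · simp only [Fin.cons_succ, mem_map, Fin.coe_succEmb, Fin.succ_inj, exists_eq_right, flipV]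
    by_cases hi : i ∈ S
    · cases s i <;> simp [hi, sn] <;> ring
    · cases s i <;> simp [hi]

theorem X_flip1 (e : Fin N ≃ Seed n M) (i : Fin n) (s : Cube n) (ω : Fin N) :
    X e (flipV {i} s) ω = flipS {i.succ} (X e s ω) := by
  rw [X_flip]
  simp

theorem card_NM (e : Fin N ≃ Seed n M) : N = 2 * M ^ (n + 1) := by
  have := Fintype.card_congr e
  rw [Fintype.card_fin, card_seed] at this
  exact this

theorem tot (e : Fin N ≃ Seed n M) : (2 * (M : ℝ)) ^ (n + 1) = 2 ^ n * N := by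
  rw [card_NM e]
  push_cast
  rw [mul_pow, pow_succ]
  ring

end Pool.Agent.K1H25.ST
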