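import Pool.Agent.K1H25.ST.Cls

/-! The fields of the transport system. -/

set_option autoImplicit false

noncomputable section

namespace Pool.Agent.K1H25.ST

open Finset hiding box
open Pool.Agent.K1H64.ST

variable {n M N : ℕ} {A : Finset (Cube (n + 1))}

theorem strad_bd (P : Pot (n + 1) A) (e : Fin N ≃ Seed n M) (u : ℕ → ℝ) (hu : Monotone u) (cm : ℕ)
    (B : ℝ) (hB : 0 ≤ B) (hS : ∀ c, (4 : ℝ) ^ c * Str P M (u c) ≤ B) :
    ∑ c ∈ range cm, (2 : ℝ) ^ c * ∑ i : Fin n, ((univ.filter (fun q : Cube n × Fin N =>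
      ¬ (clx P M u cm (X e q.1 q.2) = c ↔ clx P M u cm (X e (flipV {i} q.1) q.2) = c))).card : ℝ)
      ≤ 4 * B := by
  have key : ∀ c ∈ range cm, (2 : ℝ) ^ c * ∑ i : Fin n, ((univ.filter (fun q : Cube n × Fin N =>
      ¬ (clx P M u cm (X e q.1 q.2) = c ↔ clx P M u cm (X e (flipV {i} q.1) q.2) = c))).card : ℝ)
      ≤ 2 * B * (1 / 2) ^ c := by
    intro c hc
    rw [mem_range] at hc
    have h1 : ∑ i : Fin n, ((univ.filter (fun q : Cube n × Fin N =>
      ¬ (clx P M u cm (X e q.1 q.2) = c ↔ clx P M u cm (X e (flipV {i} q.1) q.2) = c))).card : ℝ)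
      ≤ Str P M (u c) + Str P M (u (c + 1)) := by
      have h2 : ∀ i : Fin n, ((univ.filter (fun q : Cube n × Fin N =>
        ¬ (clx P M u cm (X e q.1 q.2) = c ↔ clx P M u cm (X e (flipV {i} q.1) q.2) = c))).card : ℝ)
        ≤ (((grid (n + 1) M).filter (fun x => ¬ (u c ≤ Psi P M x ↔
            u c ≤ Psi P M (flipS {i.succ} x)))).card : ℝ) +
          (((grid (n + 1) M).filter (fun x => ¬ (u (c + 1) ≤ Psi P M x ↔
            u (c + 1) ≤ Psi P M (flipS {i.succ} x)))).card : ℝ) := by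
        intro i
        have h3 := card_X_le e (fun x => ¬ (u c ≤ Psi P M x ↔ u c ≤ Psi P M (flipS {i.succ} x)) ∨
          ¬ (u (c + 1) ≤ Psi P M x ↔ u (c + 1) ≤ Psi P M (flipS {i.succ} x)))
          (fun q : Cube n × Fin N =>
            ¬ (clx P M u cm (X e q.1 q.2) = c ↔ clx P M u cm (X e (flipV {i} q.1) q.2) = c)) ?_
        · rw [filter_or] at h3
          have h4 := h3.trans (card_union_le _ _)
          exact_mod_cast h4
        · intro q hq
          rw [X_flip1] at hq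
          by_contra hcon
          rw [not_or, not_not, not_not] at hcon
          apply hq
          have a1 := le_clx (M := M) P u hu cm (X e q.1 q.2) (c := c + 1) (by omega) (by omega)
          have a2 := le_clx (M := M) P u hu cm (flipS {i.succ} (X e q.1 q.2)) (c := c + 1)
            (by omega) (by omega)
          have a3 : c + 1 ≤ clx P M u cm (X e q.1 q.2) ↔
              c + 1 ≤ clx P M u cm (flipS {i.succ} (X e q.1 q.2)) := by
            rw [a1, a2]; exact hcon.2
          rcases Nat.eq_zero_or_pos c with hc0 | hc0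
          · subst hc0
            constructor <;> intro hh <;> omega
          · have b1 := le_clx (M := M) P u hu cm (X e q.1 q.2) (c := c) hc0 (by omega)
            have b2 := le_clx (M := M) P u hu cm (flipS {i.succ} (X e q.1 q.2)) (c := c)
              hc0 (by omega)
            have b3 : c ≤ clx P M u cm (X e q.1 q.2) ↔
                c ≤ clx P M u cm (flipS {i.succ} (X e q.1 q.2)) := by
              rw [b1, b2]; exact hcon.1
            constructor <;> intro hh <;> omega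
      refine (sum_le_sum fun i _ => h2 i).trans ?_
      rw [sum_add_distrib]
      apply add_le_add
      · unfold Str
        rw [Fin.sum_univ_succ]
        have : (0 : ℝ) ≤ (((grid (n + 1) M).filter (fun x => ¬ (u c ≤ Psi P M x ↔
          u c ≤ Psi P M (flipS {0} x)))).card : ℝ) := Nat.cast_nonneg _
        linarith
      · unfold Str
        rw [Fin.sum_univ_succ]
        have : (0 : ℝ) ≤ (((grid (n + 1) M).filter (fun x => ¬ (u (c + 1) ≤ Psi P M x ↔
          u (c + 1) ≤ Psi P M (flipS {0} x)))).card : ℝ) := Nat.cast_nonneg _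
        linarith
    have h5 := hS c
    have h6 := hS (c + 1)
    have h7 := Str_nonneg P M (u (c + 1))
    have h8 : (0 : ℝ) < 4 ^ c := by positivity
    rw [pow_succ] at h6
    have h9 : (4 : ℝ) ^ c * (Str P M (u c) + Str P M (u (c + 1))) ≤ 2 * B := by nlinarith
    calc _ ≤ (2 : ℝ) ^ c * (Str P M (u c) + Str P M (u (c + 1))) := by
          apply mul_le_mul_of_nonneg_left h1 (by positivity)
      _ = (4 : ℝ) ^ c * (Str P M (u c) + Str P M (u (c + 1))) * (1 / 2) ^ c := by
          rw [show (4 : ℝ) = 2 * 2 by norm_num, mul_pow, div_pow, one_pow]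
          field_simp
      _ ≤ 2 * B * (1 / 2) ^ c := by
          apply mul_le_mul_of_nonneg_right h9 (by positivity)
  refine (sum_le_sum key).trans ?_
  rw [← mul_sum]
  have := sum_geometric_two_le cm
  nlinarith

theorem card_cl_le (P : Pot (n + 1) A) (e : Fin N ≃ Seed n M) (u : ℕ → ℝ) (hu : Monotone u) (cm : ℕ)
    (hu4 : ∀ c, (4 : ℝ) ^ c ≤ u c) (CT : ℝ) (hCT : 1 ≤ CT)
    (htail : ∀ v : ℝ, (((grid (n + 1) M).filter (fun x => v ≤ Psi P M x)).card : ℝ) ≤
      2 * CT * Real.exp (-v / 4) * (2 * M) ^ (n + 1)) (c : ℕ) (hc : c ≤ cm) :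
    ((univ.filter (fun q : Cube n × Fin N => c ≤ clx P M u cm (X e q.1 q.2))).card : ℝ) ≤
      64 * CT / 16 ^ c * (2 * M) ^ (n + 1) := by
  have hG : (0 : ℝ) ≤ (2 * (M : ℝ)) ^ (n + 1) := by positivity
  rcases Nat.eq_zero_or_pos c with hc0 | hc0
  · subst hc0
    have h1 := card_X_le e (fun _ => True) (fun q : Cube n × Fin N => 0 ≤ clx P M u cm (X e q.1 q.2))
      (fun _ _ => trivial)
    have h2 : (((grid (n + 1) M).filter (fun _ => True)).card : ℝ) = (2 * M) ^ (n + 1) := by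
      rw [filter_true, K1H37.ST.card_grid]
      push_cast
      rfl
    have h3 : ((univ.filter (fun q : Cube n × Fin N => 0 ≤ clx P M u cm (X e q.1 q.2))).card : ℝ) ≤
        (2 * M) ^ (n + 1) := by
      rw [← h2]
      exact_mod_cast h1
    refine h3.trans ?_
    simp only [pow_zero, div_one]
    nlinarith
  · have h1 := card_X_le e (fun x => u c ≤ Psi P M x)
      (fun q : Cube n × Fin N => c ≤ clx P M u cm (X e q.1 q.2)) (fun q hq =>
        (le_clx (M := M) P u hu cm _ hc0 hc).1 hq)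
    have h2 : ((univ.filter (fun q : Cube n × Fin N => c ≤ clx P M u cm (X e q.1 q.2))).card : ℝ) ≤
        2 * CT * Real.exp (-(u c) / 4) * (2 * M) ^ (n + 1) := by
      refine le_trans ?_ (htail (u c))
      exact_mod_cast h1
    refine h2.trans ?_
    apply mul_le_mul_of_nonneg_right _ hG
    have h4 : (0 : ℝ) < 4 ^ c := by positivity
    have h5 := exp_bd ((4 : ℝ) ^ c) h4
    have h6 : Real.exp (-(u c) / 4) ≤ Real.exp (-((4 : ℝ) ^ c) / 4) := by
      apply Real.exp_le_exp.2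
      have := hu4 c
      linarith
    have h7 : ((4 : ℝ) ^ c) ^ 2 = 16 ^ c := by
      rw [← pow_mul, mul_comm, pow_mul]
      norm_num
    rw [h7] at h5
    have h8 : Real.exp (-(u c) / 4) ≤ 32 / 16 ^ c := h6.trans h5
    calc 2 * CT * Real.exp (-(u c) / 4) ≤ 2 * CT * (32 / 16 ^ c) := by
          apply mul_le_mul_of_nonneg_left h8 (by linarith)
      _ = 64 * CT / 16 ^ c := by ring

theorem clm_bd (P : Pot (n + 1) A) (e : Fin N ≃ Seed n M) (u : ℕ → ℝ) (hu : Monotone u) (cm : ℕ)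
    (hu4 : ∀ c, (4 : ℝ) ^ c ≤ u c) (CT : ℝ) (hCT : 1 ≤ CT)
    (htail : ∀ v : ℝ, (((grid (n + 1) M).filter (fun x => v ≤ Psi P M x)).card : ℝ) ≤
      2 * CT * Real.exp (-v / 4) * (2 * M) ^ (n + 1)) :
    ∑ c ∈ range cm, (4 : ℝ) ^ c *
      ((univ.filter (fun q : Cube n × Fin N => clx P M u cm (X e q.1 q.2) = c)).card : ℝ) ≤
      128 * CT * (2 * M) ^ (n + 1) := by
  have hG : (0 : ℝ) ≤ (2 * (M : ℝ)) ^ (n + 1) := by positivity
  have key : ∀ c ∈ range cm, (4 : ℝ) ^ c *
      ((univ.filter (fun q : Cube n × Fin N => clx P M u cm (X e q.1 q.2) = c)).card : ℝ) ≤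
      64 * CT * (2 * M) ^ (n + 1) * (1 / 2) ^ c := by
    intro c hc
    rw [mem_range] at hc
    have h1 := card_cl_le P e u hu cm hu4 CT hCT htail c hc.le
    have h2 : ((univ.filter (fun q : Cube n × Fin N => clx P M u cm (X e q.1 q.2) = c)).card : ℝ) ≤
        ((univ.filter (fun q : Cube n × Fin N => c ≤ clx P M u cm (X e q.1 q.2))).card : ℝ) := by
      have : (univ.filter (fun q : Cube n × Fin N => clx P M u cm (X e q.1 q.2) = c)).card ≤
        (univ.filter (fun q : Cube n × Fin N => c ≤ clx P M u cm (X e q.1 q.2))).card := by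
        apply card_le_card
        intro q hq
        rw [mem_filter] at hq ⊢
        exact ⟨hq.1, hq.2.ge⟩
      exact_mod_cast this
    have h3 : (4 : ℝ) ^ c * (64 * CT / 16 ^ c * (2 * M) ^ (n + 1)) =
        64 * CT * (2 * M) ^ (n + 1) * (1 / 4) ^ c := by
      rw [show (16 : ℝ) = 4 * 4 by norm_num, mul_pow, div_pow, one_pow]
      field_simp
    calc _ ≤ (4 : ℝ) ^ c * (64 * CT / 16 ^ c * (2 * M) ^ (n + 1)) := by
          apply mul_le_mul_of_nonneg_left (h2.trans h1) (by positivity)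
      _ = 64 * CT * (2 * M) ^ (n + 1) * (1 / 4) ^ c := h3
      _ ≤ 64 * CT * (2 * M) ^ (n + 1) * (1 / 2) ^ c := by
          apply mul_le_mul_of_nonneg_left _ (by positivity)
          apply pow_le_pow_left₀ (by norm_num) (by norm_num)
  refine (sum_le_sum key).trans ?_
  rw [← mul_sum]
  have h := sum_geometric_two_le cm
  have h2 : 0 ≤ 64 * CT * (2 * (M : ℝ)) ^ (n + 1) := by positivity
  nlinarith

theorem bad_bd (P : Pot (n + 1) A) (e : Fin N ≃ Seed n M) (u : ℕ → ℝ) (hu : Monotone u) (cm : ℕ)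
    (hcm : 1 ≤ cm) (hu4 : ∀ c, (4 : ℝ) ^ c ≤ u c) (CT : ℝ) (hCT : 1 ≤ CT)
    (htail : ∀ v : ℝ, (((grid (n + 1) M).filter (fun x => v ≤ Psi P M x)).card : ℝ) ≤
      2 * CT * Real.exp (-v / 4) * (2 * M) ^ (n + 1))
    (hcm2 : 16 * Real.log (n + 2) ≤ 4 ^ cm) :
    ((univ.filter (fun q : Cube n × Fin N => cm ≤ clx P M u cm (X e q.1 q.2))).card : ℝ) ≤
      2 * CT * (2 * M) ^ (n + 1) / (n + 1) ^ 4 := by
  have h1 := card_X_le e (fun x => u cm ≤ Psi P M x)
    (fun q : Cube n × Fin N => cm ≤ clx P M u cm (X e q.1 q.2)) (fun q hq =>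
      (le_clx (M := M) P u hu cm _ hcm le_rfl).1 hq)
  have h2 : ((univ.filter (fun q : Cube n × Fin N => cm ≤ clx P M u cm (X e q.1 q.2))).card : ℝ) ≤
      2 * CT * Real.exp (-(u cm) / 4) * (2 * M) ^ (n + 1) := by
    refine le_trans ?_ (htail (u cm))
    exact_mod_cast h1
  refine h2.trans ?_
  have h3 : Real.exp (-(u cm) / 4) ≤ 1 / ((n : ℝ) + 1) ^ 4 := by
    have a1 := hu4 cm
    have a2 : Real.exp (-(u cm) / 4) ≤ Real.exp (- (4 * Real.log (n + 2))) := by
      apply Real.exp_le_exp.2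
      linarith
    refine a2.trans ?_
    rw [Real.exp_neg, show (4 : ℝ) * Real.log (n + 2) = (4 : ℕ) * Real.log (n + 2) by norm_num,
      Real.exp_nat_mul, Real.exp_log (by positivity), inv_eq_one_div]
    apply one_div_le_one_div_of_le (by positivity)
    apply pow_le_pow_left₀ (by positivity)
    linarith
  have hG : (0 : ℝ) ≤ (2 * (M : ℝ)) ^ (n + 1) := by positivity
  calc 2 * CT * Real.exp (-(u cm) / 4) * (2 * M) ^ (n + 1)
      ≤ 2 * CT * (1 / ((n : ℝ) + 1) ^ 4) * (2 * M) ^ (n + 1) := by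
        apply mul_le_mul_of_nonneg_right _ hG
        apply mul_le_mul_of_nonneg_left h3 (by linarith)
    _ = 2 * CT * (2 * M) ^ (n + 1) / (n + 1) ^ 4 := by ring

/-- Upper bound for `Psi` from the class. -/
theorem Psi_lt (P : Pot (n + 1) A) (u : ℕ → ℝ) (hu : Monotone u) (cm : ℕ)
    (x : Fin (n + 1) → ℤ) {c : ℕ} (hc : c < cm) (h : clx P M u cm x ≤ c) :
    Psi P M x < u (c + 1) := by
  by_contra hcon
  rw [not_lt] at hcon
  have := (le_clx (M := M) P u hu cm x (c := c + 1) (by omega) (by omega)).2 hcon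
  omega

theorem disp_le (P : Pot (n + 1) A) (e : Fin N ≃ Seed n M) (s : Cube n) (ω : Fin N) :
    disp s (P.T (X e s ω)) ≤ (P.D (X e s ω)).card := by
  unfold disp
  apply card_le_card_of_injOn Fin.succ
  · intro i hi
    have hi' := (mem_filter.1 hi).2
    rw [mem_coe]
    unfold X at hi' ⊢
    rw [K1H9.ST.mem_D]
    simpa using hi'
  · intro i _ j _ h
    exact Fin.succ_injective _ h

theorem disp_bd (hS : S_SMALL) (P : Pot (n + 1) A) (hM : 1 ≤ M) (hMn : n + 1 ≤ M)
    (e : Fin N ≃ Seed n M) (u : ℕ → ℝ) (hu : Monotone u) (hu2 : ∀ c, u c ≤ 2 * 4 ^ c) (cm : ℕ) :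
    ((univ.filter (fun q : Cube n × Fin N => clx P M u cm (X e q.1 q.2) < cm ∧
      12 * 2 ^ (clx P M u cm (X e q.1 q.2)) * Real.sqrt (n + 1) <
        (disp q.1 (P.T (X e q.1 q.2)) : ℝ))).card : ℝ) ≤
      2 * (2 * M) ^ (n + 1) * (1 / 2) ^ (Nat.sqrt (n + 1)) := by
  have hG : (0 : ℝ) ≤ (2 * (M : ℝ)) ^ (n + 1) := by positivity
  have hM0 : (0 : ℝ) < M := by exact_mod_cast hM
  have hd : (0 : ℝ) < (n : ℝ) + 1 := by positivity
  have hsq : 0 < Real.sqrt ((n : ℝ) + 1) := Real.sqrt_pos.2 hd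
  have hsq1 : 1 ≤ Real.sqrt ((n : ℝ) + 1) := by
    rw [Real.one_le_sqrt]
    linarith [Nat.cast_nonneg (α := ℝ) n]
  have hss : Real.sqrt ((n : ℝ) + 1) * Real.sqrt ((n : ℝ) + 1) = n + 1 := Real.mul_self_sqrt hd.le
  -- the exceptional sets
  have h1 := card_X_le e (fun x => ∃ c ∈ range cm, 4 * (2 ^ c * Real.sqrt ((n : ℝ) + 1)) <
      ((univ.filter (fun l => (|x l| : ℝ) ≤
        2 * (2 ^ c / Real.sqrt ((n : ℝ) + 1)) * M)).card : ℝ))
    (fun q : Cube n × Fin N => clx P M u cm (X e q.1 q.2) < cm ∧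
      12 * 2 ^ (clx P M u cm (X e q.1 q.2)) * Real.sqrt (n + 1) <
        (disp q.1 (P.T (X e q.1 q.2)) : ℝ)) ?_
  · have h2 : ((univ.filter (fun q : Cube n × Fin N => clx P M u cm (X e q.1 q.2) < cm ∧
        12 * 2 ^ (clx P M u cm (X e q.1 q.2)) * Real.sqrt (n + 1) <
        (disp q.1 (P.T (X e q.1 q.2)) : ℝ))).card : ℝ) ≤
        ∑ c ∈ range cm, (((grid (n + 1) M).filter (fun x =>
          4 * (2 ^ c * Real.sqrt ((n : ℝ) + 1)) <
          ((univ.filter (fun l => (|x l| : ℝ) ≤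
            2 * (2 ^ c / Real.sqrt ((n : ℝ) + 1)) * M)).card : ℝ))).card : ℝ) := by
      have h3 : ((grid (n + 1) M).filter (fun x => ∃ c ∈ range cm,
          4 * (2 ^ c * Real.sqrt ((n : ℝ) + 1)) <
          ((univ.filter (fun l => (|x l| : ℝ) ≤
            2 * (2 ^ c / Real.sqrt ((n : ℝ) + 1)) * M)).card : ℝ))) ⊆
          (range cm).biUnion (fun c => (grid (n + 1) M).filter (fun x =>
          4 * (2 ^ c * Real.sqrt ((n : ℝ) + 1)) <
          ((univ.filter (fun l => (|x l| : ℝ) ≤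
            2 * (2 ^ c / Real.sqrt ((n : ℝ) + 1)) * M)).card : ℝ))) := by
        intro x hx
        rw [mem_filter] at hx
        obtain ⟨hx1, c, hc, hx2⟩ := hx
        rw [mem_biUnion]
        exact ⟨c, hc, mem_filter.2 ⟨hx1, hx2⟩⟩
      have h4 := (h1.trans (card_le_card h3)).trans card_biUnion_le
      exact_mod_cast h4
    refine h2.trans ?_
    have h5 : ∀ c ∈ range cm, (((grid (n + 1) M).filter (fun x =>
          4 * (2 ^ c * Real.sqrt ((n : ℝ) + 1)) <
          ((univ.filter (fun l => (|x l| : ℝ) ≤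
            2 * (2 ^ c / Real.sqrt ((n : ℝ) + 1)) * M)).card : ℝ))).card : ℝ) ≤
        (1 / 2) ^ (Nat.sqrt (n + 1)) * (2 * M) ^ (n + 1) * (1 / 2) ^ c := by
      intro c _
      have h6 := small_bd (d := n + 1) hS hM (2 ^ c * Real.sqrt ((n : ℝ) + 1))
        (2 ^ c / Real.sqrt ((n : ℝ) + 1)) ?_ ?_ (by positivity)
      · refine h6.trans ?_
        have h7 : Real.exp (-(2 ^ c * Real.sqrt ((n : ℝ) + 1)) * Real.log 2) ≤
            (1 / 2) ^ (Nat.sqrt (n + 1)) * (1 / 2) ^ c := by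
          rw [← pow_add]
          have h8 : ((1 : ℝ) / 2) ^ (Nat.sqrt (n + 1) + c) =
              Real.exp (-(((Nat.sqrt (n + 1) + c : ℕ) : ℝ)) * Real.log 2) := by
            rw [neg_mul, Real.exp_neg, mul_comm, Real.exp_mul, Real.exp_log (by norm_num),
              Real.rpow_natCast, div_pow, one_pow, inv_eq_one_div]
          rw [h8]
          apply Real.exp_le_exp.2
          have hl := Real.log_pos (by norm_num : (1 : ℝ) < 2)
          have h9 : (((Nat.sqrt (n + 1) + c : ℕ) : ℝ)) ≤ 2 ^ c * Real.sqrt ((n : ℝ) + 1) := by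
            push_cast
            have a1 : ((Nat.sqrt (n + 1) : ℕ) : ℝ) ≤ Real.sqrt ((n : ℝ) + 1) := by
              have := Real.nat_sqrt_le_real_sqrt (a := n + 1)
              push_cast at this
              exact this
            have a2 : (c : ℝ) + 1 ≤ 2 ^ c := by
              have := Nat.lt_two_pow_self (n := c)
              exact_mod_cast this
            nlinarith
          nlinarith
        calc _ ≤ (1 / 2) ^ (Nat.sqrt (n + 1)) * (1 / 2) ^ c * (2 * (M : ℝ)) ^ (n + 1) :=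
              mul_le_mul_of_nonneg_right h7 hG
          _ = _ := by ring
      · rw [div_le_div_iff₀ hM0 hsq, one_mul]
        have a1 : (1 : ℝ) ≤ 2 ^ c := one_le_pow₀ (by norm_num)
        have a2 : Real.sqrt ((n : ℝ) + 1) ≤ M := by
          have b1 : ((n : ℝ) + 1) ≤ M := by exact_mod_cast hMn
          nlinarith
        nlinarith
      · push_cast
        rw [div_mul_eq_mul_div, div_le_iff₀ hsq, mul_assoc, hss]
    refine (sum_le_sum h5).trans ?_
    rw [← mul_sum]
    have h := sum_geometric_two_le cm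
    have h10 : 0 ≤ (1 / 2 : ℝ) ^ (Nat.sqrt (n + 1)) * (2 * (M : ℝ)) ^ (n + 1) := by positivity
    nlinarith
  · rintro ⟨s, ω⟩ ⟨hq1, hq2⟩
    simp only at hq1 hq2
    refine ⟨clx P M u cm (X e s ω), mem_range.2 hq1, ?_⟩
    set c := clx P M u cm (X e s ω) with hc
    have a1 := Psi_lt (M := M) P u hu cm (X e s ω) hq1 (le_of_eq hc.symm)
    have a2 := hu2 (c + 1)
    have a3 := cost_le P M (X e s ω)
    have a4 := card_D_le P hM (X e s ω) (2 ^ c / Real.sqrt ((n : ℝ) + 1)) (by positivity)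
    have a5 : (disp s (P.T (X e s ω)) : ℝ) ≤ ((P.D (X e s ω)).card : ℝ) := by
      exact_mod_cast disp_le P e s ω
    have a6 : P.cost M (X e s ω) ≤ 16 * 4 ^ c := by
      rw [pow_succ] at a2
      linarith
    have a7 : P.cost M (X e s ω) / (2 * (2 ^ c / Real.sqrt ((n : ℝ) + 1))) ≤
        8 * (2 ^ c * Real.sqrt ((n : ℝ) + 1)) := by
      rw [div_le_iff₀ (by positivity)]
      have a8 : 8 * (2 ^ c * Real.sqrt ((n : ℝ) + 1)) * (2 * (2 ^ c / Real.sqrt ((n : ℝ) + 1))) =
          16 * 4 ^ c := by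
        rw [show (4 : ℝ) = 2 * 2 by norm_num, mul_pow]
        field_simp
        norm_num
      rw [a8]
      exact a6
    linarith

end Pool.Agent.K1H25.ST
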