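import Pool.Agent.K1H25.ST.Sys
import Pool.Agent.K1H37.ST.Pot
import Pool.Agent.K1H37.ST.NF
import Pool.Agent.K1H44.ST.Tail
import Pool.Agent.K1H85.ST.Ze
import Pool.Agent.K1H85.ST.Line
import Pool.Agent.K1H85.ST.Rank
import Pool.Agent.K1H9.ST.Str
import Pool.Agent.K1H90.ST.Eta
import Pool.Agent.K1H90.ST.Thr

/-! Half I. -/

set_option autoImplicit false

namespace Pool.Agent.K1H25.ST

open Pool.Agent.K1H64.ST

/-- Half I, unconditional. -/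
theorem sys : S_SYS :=
  t_SYS K1H37.ST.t_POT K1H44.ST.t_TAIL
    (K1H9.ST.t_STR K1H85.ST.t_LINE K1H85.ST.t_RANK K1H37.ST.t_NF K1H44.ST.t_TAIL)
    (K1H85.ST.t_ZE K1H37.ST.t_NF (K1H9.ST.t_STR2 K1H85.ST.t_LINE K1H85.ST.t_RANK K1H44.ST.t_TAIL)
      K1H44.ST.t_TAIL)
    (K1H90.ST.t_ETA K1H44.ST.t_TAIL) K1H90.ST.t_THR K1H90.ST.t_SMALL
    K1H9.ST.t_COL1 K1H9.ST.t_COL2

end Pool.Agent.K1H25.ST
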