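import Pool.Agent.K1H25.ST.Fld

/-! Collisions and the assembly of half I: `t_SYS`. -/

set_option autoImplicit false

noncomputable section

namespace Pool.Agent.K1H25.ST

open Finset hiding box
open Pool.Agent.K1H64.ST

variable {n M N : ℕ} {A : Finset (Cube (n + 1))}

theorem sum_pow_map (W : Finset (Fin n)) (W' : Finset (Fin (n + 1)))
    (h : ∀ i : Fin n, i.succ ∈ W' → i ∈ W) (j : ℕ) (f : Finset (Fin n) → ℝ)
    (g : Finset (Fin (n + 1)) → ℝ) (hg : ∀ E, 0 ≤ g E)
    (hfg : ∀ E, f E ≤ g (E.map (Fin.succEmb n))) :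
    ∑ E ∈ powersetCard j (univ \ W), f E ≤ ∑ E ∈ powersetCard j (univ \ W'), g E := by
  calc ∑ E ∈ powersetCard j (univ \ W), f E
      ≤ ∑ E ∈ powersetCard j (univ \ W), g (E.map (Fin.succEmb n)) := sum_le_sum fun E _ => hfg E
    _ = ∑ E ∈ (powersetCard j (univ \ W)).map (mapEmbedding (Fin.succEmb n)).toEmbedding, g E := by
        rw [sum_map]
        rfl
    _ ≤ ∑ E ∈ powersetCard j (univ \ W'), g E := by
        rw [← powersetCard_map]
        apply sum_le_sum_of_subset_of_nonneg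
        · apply powersetCard_mono
          intro x hx
          rw [mem_map] at hx
          obtain ⟨i, hi, rfl⟩ := hx
          rw [mem_sdiff] at hi ⊢
          exact ⟨mem_univ _, fun hh => hi.2 (h i hh)⟩
        · intro E _ _
          exact hg E

theorem flipV_cons (S : Finset (Fin n)) (b : Bool) (s : Cube n) :
    flipV (S.map (Fin.succEmb n)) (Fin.cons b s : Cube (n + 1)) = Fin.cons b (flipV S s) := by
  funext l
  refine Fin.cases ?_ (fun i => ?_) l
  · simp [flipV]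
  · simp [flipV]

theorem flipV_cons' (S : Finset (Fin n)) (b b' : Bool) (hb : b ≠ b') (s : Cube n) :
    flipV (insert 0 (S.map (Fin.succEmb n))) (Fin.cons b s : Cube (n + 1)) =
      Fin.cons b' (flipV S s) := by
  funext l
  refine Fin.cases ?_ (fun i => ?_) l
  · cases b <;> cases b' <;> simp [flipV] at hb ⊢
  · simp [flipV]

theorem cost_le_of_cl (P : Pot (n + 1) A) (u : ℕ → ℝ) (hu : Monotone u)
    (hu2 : ∀ c, u c ≤ 2 * 4 ^ c) (cm : ℕ) (x : Fin (n + 1) → ℤ) {c : ℕ} (hc : c < cm)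
    (h : clx P M u cm x ≤ c) : P.cost M x ≤ 2 * (8 * 4 ^ c) := by
  have a1 := Psi_lt (M := M) P u hu cm x hc h
  have a2 := hu2 (c + 1)
  have a3 := cost_le P M x
  rw [pow_succ] at a2
  linarith

theorem cost_le_of_cm (P : Pot (n + 1) A) (u : ℕ → ℝ) (hu : Monotone u)
    (hu2 : ∀ c, u c ≤ 2 * 4 ^ c) (cm : ℕ) (x : Fin (n + 1) → ℤ)
    (h : clx P M u cm x < cm) : P.cost M x ≤ 2 * (2 * 4 ^ cm) := by
  have a1 := Psi_lt (M := M) P u hu cm x h le_rfl
  have a2 := hu2 cm
  have a3 := cost_le P M x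
  have a4 := hu (show clx P M u cm x + 1 ≤ cm by omega)
  linarith

theorem col1_bd (hC : S_COL1) (P : Pot (n + 1) A) (hM : 1 ≤ M) (e : Fin N ≃ Seed n M)
    (u : ℕ → ℝ) (hu : Monotone u) (hu2 : ∀ c, u c ≤ 2 * 4 ^ c) (cm : ℕ) (c : ℕ) (hc : c < cm)
    (W : Finset (Fin n)) (j : ℕ) :
    ∑ E ∈ powersetCard j (univ \ W),
      ((univ.filter (fun q : Cube n × Fin N => clx P M u cm (X e q.1 q.2) ≤ c ∧
        clx P M u cm (X e (flipV (E ∪ W) q.1) q.2) ≤ c ∧
        ∀ l ∈ E, P.T (X e q.1 q.2) l.succ = P.T (X e (flipV (E ∪ W) q.1) q.2) l.succ)).card : ℝ)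
    ≤ (16 * 2 ^ c * Real.sqrt (n + 1)) ^ j / (j.factorial : ℝ) * (2 * M) ^ (n + 1) := by
  have h := hC (n + 1) M (by omega) hM A P (W.map (Fin.succEmb n)) j (8 * 4 ^ c) (by positivity)
  have hs : Real.sqrt (32 * (8 * 4 ^ c) * ((n + 1 : ℕ) : ℝ)) =
      16 * 2 ^ c * Real.sqrt (n + 1) := by
    rw [show 32 * (8 * 4 ^ c) * ((n + 1 : ℕ) : ℝ) = (16 * 2 ^ c) ^ 2 * ((n : ℝ) + 1) by
      have h4 : ((2 : ℝ) ^ c) ^ 2 = 4 ^ c := by
        rw [← pow_mul, mul_comm, pow_mul]
        norm_num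
      rw [mul_pow, h4]
      push_cast
      ring, Real.sqrt_mul (by positivity), Real.sqrt_sq (by positivity)]
  rw [hs] at h
  refine le_trans ?_ h
  apply sum_pow_map
  · intro i hi
    simpa using hi
  · intro E
    exact Nat.cast_nonneg _
  · intro E
    have h2 : (univ.filter (fun q : Cube n × Fin N => clx P M u cm (X e q.1 q.2) ≤ c ∧
        clx P M u cm (X e (flipV (E ∪ W) q.1) q.2) ≤ c ∧
        ∀ l ∈ E, P.T (X e q.1 q.2) l.succ = P.T (X e (flipV (E ∪ W) q.1) q.2) l.succ)).card ≤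
        (univ.filter (fun q : Cube (n + 1) × (Fin (n + 1) → Fin M) =>
        P.cost M (pt q.1 q.2) ≤ 2 * (8 * 4 ^ c) ∧
        P.cost M (pt (flipV (E.map (Fin.succEmb n) ∪ W.map (Fin.succEmb n)) q.1) q.2) ≤
          2 * (8 * 4 ^ c) ∧
        ∀ l ∈ E.map (Fin.succEmb n), P.T (pt q.1 q.2) l =
          P.T (pt (flipV (E.map (Fin.succEmb n) ∪ W.map (Fin.succEmb n)) q.1) q.2) l)).card := by
      apply card_le_card_of_injOn (phi e)
      · rintro ⟨s, ω⟩ hq
        obtain ⟨h3, h4, h5⟩ := (mem_filter.1 hq).2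
        simp only at h3 h4 h5
        have hX : X e (flipV (E ∪ W) s) ω =
            pt (flipV (E.map (Fin.succEmb n) ∪ W.map (Fin.succEmb n)) (phi e (s, ω)).1)
              (phi e (s, ω)).2 := by
          rw [← map_union]
          unfold X phi
          simp only [Equiv.coe_fn_mk]
          rw [flipV_cons]
        rw [mem_coe, mem_filter]
        refine ⟨mem_univ _, ?_, ?_, ?_⟩
        · exact cost_le_of_cl P u hu hu2 cm _ hc h3
        · rw [← hX]
          exact cost_le_of_cl P u hu hu2 cm _ hc h4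
        · intro l hl
          rw [mem_map] at hl
          obtain ⟨i, hi, rfl⟩ := hl
          rw [← hX]
          exact h5 i hi
      · intro q _ q' _ hqq
        exact (phi e).injective hqq
    exact_mod_cast h2

theorem col2_bd (hC : S_COL2) (P : Pot (n + 1) A) (hM : 1 ≤ M) (e : Fin N ≃ Seed n M)
    (u : ℕ → ℝ) (hu : Monotone u) (hu2 : ∀ c, u c ≤ 2 * 4 ^ c) (cm : ℕ)
    (W : Finset (Fin n)) (j : ℕ) :
    ∑ E ∈ powersetCard j (univ \ W),
      ((univ.filter (fun q : Cube n × Fin N × Fin N => clx P M u cm (X e q.1 q.2.1) < cm ∧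
        clx P M u cm (X e (flipV (E ∪ W) q.1) q.2.2) < cm ∧
        ∀ l ∈ E, P.T (X e q.1 q.2.1) l.succ = P.T (X e (flipV (E ∪ W) q.1) q.2.2) l.succ)).card : ℝ)
    ≤ (8 * 2 ^ cm * Real.sqrt (n + 1)) ^ j / (j.factorial : ℝ) *
      (2 * ((2 * M) ^ (n + 1) * M ^ (n + 1))) := by
  have hs : Real.sqrt (32 * (2 * 4 ^ cm) * ((n + 1 : ℕ) : ℝ)) =
      8 * 2 ^ cm * Real.sqrt (n + 1) := by
    rw [show 32 * (2 * 4 ^ cm) * ((n + 1 : ℕ) : ℝ) = (8 * 2 ^ cm) ^ 2 * ((n : ℝ) + 1) by
      have h4 : ((2 : ℝ) ^ cm) ^ 2 = 4 ^ cm := by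
        rw [← pow_mul, mul_comm, pow_mul]
        norm_num
      rw [mul_pow, h4]
      push_cast
      ring, Real.sqrt_mul (by positivity), Real.sqrt_sq (by positivity)]
  have h := hC (n + 1) M (by omega) hM A P (W.map (Fin.succEmb n)) j (2 * 4 ^ cm) (by positivity)
  have h' := hC (n + 1) M (by omega) hM A P (insert 0 (W.map (Fin.succEmb n))) j (2 * 4 ^ cm)
    (by positivity)
  rw [hs] at h h'
  -- split
  have hsplit : ∀ E : Finset (Fin n),
      ((univ.filter (fun q : Cube n × Fin N × Fin N => clx P M u cm (X e q.1 q.2.1) < cm ∧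
        clx P M u cm (X e (flipV (E ∪ W) q.1) q.2.2) < cm ∧
        ∀ l ∈ E, P.T (X e q.1 q.2.1) l.succ =
          P.T (X e (flipV (E ∪ W) q.1) q.2.2) l.succ)).card : ℝ) =
      ((univ.filter (fun q : Cube n × Fin N × Fin N => (clx P M u cm (X e q.1 q.2.1) < cm ∧
        clx P M u cm (X e (flipV (E ∪ W) q.1) q.2.2) < cm ∧
        ∀ l ∈ E, P.T (X e q.1 q.2.1) l.succ =
          P.T (X e (flipV (E ∪ W) q.1) q.2.2) l.succ) ∧ (e q.2.1).1 = (e q.2.2).1)).card : ℝ) +
      ((univ.filter (fun q : Cube n × Fin N × Fin N => (clx P M u cm (X e q.1 q.2.1) < cm ∧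
        clx P M u cm (X e (flipV (E ∪ W) q.1) q.2.2) < cm ∧
        ∀ l ∈ E, P.T (X e q.1 q.2.1) l.succ =
          P.T (X e (flipV (E ∪ W) q.1) q.2.2) l.succ) ∧ ¬ (e q.2.1).1 = (e q.2.2).1)).card : ℝ) := by
    intro E
    rw [← Nat.cast_add]
    congr 1
    rw [← card_filter_add_card_filter_not (s := univ.filter (fun q : Cube n × Fin N × Fin N =>
        clx P M u cm (X e q.1 q.2.1) < cm ∧
        clx P M u cm (X e (flipV (E ∪ W) q.1) q.2.2) < cm ∧
        ∀ l ∈ E, P.T (X e q.1 q.2.1) l.succ =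
          P.T (X e (flipV (E ∪ W) q.1) q.2.2) l.succ)) (fun q => (e q.2.1).1 = (e q.2.2).1),
      filter_filter, filter_filter]
  rw [sum_congr rfl fun E _ => hsplit E, sum_add_distrib]
  have hb : (8 * 2 ^ cm * Real.sqrt (n + 1)) ^ j / (j.factorial : ℝ) *
      (2 * ((2 * M) ^ (n + 1) * M ^ (n + 1))) =
      (8 * 2 ^ cm * Real.sqrt (n + 1)) ^ j / (j.factorial : ℝ) * ((2 * M) ^ (n + 1) * M ^ (n + 1)) +
      (8 * 2 ^ cm * Real.sqrt (n + 1)) ^ j / (j.factorial : ℝ) *
        ((2 * M) ^ (n + 1) * M ^ (n + 1)) := by ring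
  rw [hb]
  apply add_le_add
  · refine le_trans ?_ h
    apply sum_pow_map
    · intro i hi
      simpa using hi
    · intro E
      exact Nat.cast_nonneg _
    · intro E
      rw [Nat.cast_le]
      apply card_le_card_of_injOn (fun q : Cube n × Fin N × Fin N =>
        ((Fin.cons (e q.2.1).1 q.1 : Cube (n + 1)), (e q.2.1).2, (e q.2.2).2))
      · rintro ⟨s, ω, ω'⟩ hq
        obtain ⟨⟨h3, h4, h5⟩, h6⟩ := (mem_filter.1 hq).2
        simp only at h3 h4 h5 h6
        have hX : X e (flipV (E ∪ W) s) ω' =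
            pt (flipV (E.map (Fin.succEmb n) ∪ W.map (Fin.succEmb n))
              (Fin.cons (e ω).1 s : Cube (n + 1))) (e ω').2 := by
          rw [← map_union]
          unfold X
          rw [flipV_cons, h6]
        rw [mem_coe, mem_filter]
        refine ⟨mem_univ _, ?_, ?_, ?_⟩
        · exact cost_le_of_cm P u hu hu2 cm _ h3
        · simp only
          rw [← hX]
          exact cost_le_of_cm P u hu hu2 cm _ h4
        · intro l hl
          rw [mem_map] at hl
          obtain ⟨i, hi, rfl⟩ := hl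
          simp only
          rw [← hX]
          exact h5 i hi
      · rintro ⟨s, ω, ω'⟩ hq ⟨s2, ω2, ω2'⟩ hq2 hqq
        have h6 := (mem_filter.1 hq).2.2
        have h6' := (mem_filter.1 hq2).2.2
        simp only at h6 h6'
        simp only [Prod.mk.injEq] at hqq
        obtain ⟨e1, e2, e3⟩ := hqq
        have e4 := Fin.cons_injective2 e1
        have e5 : ω = ω2 := e.injective (Prod.ext e4.1 e2)
        have e6 : ω' = ω2' := e.injective (Prod.ext (by rw [← h6, ← h6']; exact e4.1) e3)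
        rw [e4.2, e5, e6]
  · refine le_trans ?_ h'
    apply sum_pow_map
    · intro i hi
      rw [mem_insert] at hi
      rcases hi with hi | hi
      · exact absurd hi (Fin.succ_ne_zero i)
      · simpa using hi
    · intro E
      exact Nat.cast_nonneg _
    · intro E
      rw [Nat.cast_le]
      apply card_le_card_of_injOn (fun q : Cube n × Fin N × Fin N =>
        ((Fin.cons (e q.2.1).1 q.1 : Cube (n + 1)), (e q.2.1).2, (e q.2.2).2))
      · rintro ⟨s, ω, ω'⟩ hq
        obtain ⟨⟨h3, h4, h5⟩, h6⟩ := (mem_filter.1 hq).2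
        simp only at h3 h4 h5 h6
        have hX : X e (flipV (E ∪ W) s) ω' =
            pt (flipV (E.map (Fin.succEmb n) ∪ insert 0 (W.map (Fin.succEmb n)))
              (Fin.cons (e ω).1 s : Cube (n + 1))) (e ω').2 := by
          rw [union_insert, ← map_union]
          unfold X
          rw [flipV_cons' _ _ _ h6]
        rw [mem_coe, mem_filter]
        refine ⟨mem_univ _, ?_, ?_, ?_⟩
        · exact cost_le_of_cm P u hu hu2 cm _ h3
        · simp only
          rw [← hX]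
          exact cost_le_of_cm P u hu hu2 cm _ h4
        · intro l hl
          rw [mem_map] at hl
          obtain ⟨i, hi, rfl⟩ := hl
          simp only
          rw [← hX]
          exact h5 i hi
      · rintro ⟨s, ω, ω'⟩ hq ⟨s2, ω2, ω2'⟩ hq2 hqq
        have h6 := (mem_filter.1 hq).2.2
        have h6' := (mem_filter.1 hq2).2.2
        simp only at h6 h6'
        simp only [Prod.mk.injEq] at hqq
        obtain ⟨e1, e2, e3⟩ := hqq
        have e4 := Fin.cons_injective2 e1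
        have e5 : ω = ω2 := e.injective (Prod.ext e4.1 e2)
        have e7 : (e ω').1 = (e ω2').1 := by
          have := e4.1
          revert h6 h6' this
          cases (e ω).1 <;> cases (e ω').1 <;> cases (e ω2).1 <;> cases (e ω2').1 <;> simp
        have e6 : ω' = ω2' := e.injective (Prod.ext e7 e3)
        rw [e4.2, e5, e6]

theorem str_bd (P : Pot (n + 1) A) (e : Fin N ≃ Seed n M) (B : ℝ)
    (hB : ∑ i : Fin (n + 1), ∑ x ∈ grid (n + 1) M,
      (hammingDist (P.T x) (P.T (flipS {i} x)) : ℝ) ≤ B) :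
    ∑ i : Fin n, ∑ s : Cube n, ∑ ω : Fin N,
      (hammingDist (P.T (X e s ω)) (P.T (X e (flipV {i} s) ω)) : ℝ) ≤ B := by
  rw [Fin.sum_univ_succ] at hB
  have h0 : 0 ≤ ∑ x ∈ grid (n + 1) M, (hammingDist (P.T x) (P.T (flipS {0} x)) : ℝ) :=
    sum_nonneg fun _ _ => Nat.cast_nonneg _
  have h1 : ∑ i : Fin n, ∑ s : Cube n, ∑ ω : Fin N,
      (hammingDist (P.T (X e s ω)) (P.T (X e (flipV {i} s) ω)) : ℝ) =
      ∑ i : Fin n, ∑ x ∈ grid (n + 1) M, (hammingDist (P.T x) (P.T (flipS {i.succ} x)) : ℝ) := by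
    apply sum_congr rfl
    intro i _
    rw [sum_X e (fun x => (hammingDist (P.T x) (P.T (flipS {i.succ} x)) : ℝ))]
    simp only [X_flip1]
  rw [h1]
  linarith

theorem Bal_mono {d : ℕ} {A : Finset (Cube d)} (P : Pot d A) {δ δ' : ℝ} (h : δ ≤ δ')
    (hP : P.Bal M δ) : P.Bal M δ' := by
  intro a ha
  have h1 := hP a ha
  have h2 : (0 : ℝ) ≤ 2 * (M : ℝ) ^ d := by positivity
  constructor <;> nlinarith [h1.1, h1.2]

theorem exists_cm (n : ℕ) : ∃ cm : ℕ, 1 ≤ cm ∧ 16 * Real.log (n + 2) ≤ 4 ^ cm ∧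
    (4 : ℝ) ^ cm ≤ 64 * Real.log (n + 2) := by
  have hl : Real.log 2 ≤ Real.log (n + 2) := by
    apply Real.log_le_log (by norm_num)
    linarith [Nat.cast_nonneg (α := ℝ) n]
  have hl2 := Real.log_two_gt_d9
  have hex : ∃ k : ℕ, 16 * Real.log (n + 2) ≤ 4 ^ k := by
    obtain ⟨k, hk⟩ := pow_unbounded_of_one_lt (16 * Real.log (n + 2)) (by norm_num : (1 : ℝ) < 4)
    exact ⟨k, hk.le⟩
  classical
  refine ⟨Nat.find hex, ?_, Nat.find_spec hex, ?_⟩
  · rw [Nat.one_le_iff_ne_zero]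
    intro h0
    have := Nat.find_spec hex
    rw [h0] at this
    simp only [pow_zero] at this
    linarith
  · have hne : Nat.find hex ≠ 0 := by
      intro h0
      have := Nat.find_spec hex
      rw [h0] at this
      simp only [pow_zero] at this
      linarith
    obtain ⟨k, hk⟩ := Nat.exists_eq_succ_of_ne_zero hne
    have h1 := Nat.find_min hex (m := k) (by omega)
    rw [not_le] at h1
    rw [hk, pow_succ]
    linarith

theorem t_SYS (hPOT : S_POT) (hTAIL : S_TAIL) (hSTR : S_STR) (hZE : S_ZE) (hETA : S_ETA)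
    (hTHR : S_THR) (hSMALL : S_SMALL) (hCOL1 : S_COL1) (hCOL2 : S_COL2) : S_SYS := by
  obtain ⟨CT, hCT1, hTAIL⟩ := hTAIL
  obtain ⟨CS, hCS0, hSTR⟩ := hSTR
  obtain ⟨CZ, hCZ0, hZE⟩ := hZE
  obtain ⟨CE, hCE0, hETA⟩ := hETA
  refine ⟨200 * CT + CS + 4 * CZ + 4 * CE + 8, by linarith, 1, ?_⟩
  set C := 200 * CT + CS + 4 * CZ + 4 * CE + 8 with hCdef
  intro n hn A hA
  have hd2 : 2 ≤ n + 1 := by omega
  have hA2 : 2 * A.card = 2 ^ (n + 1) := by rw [hA, pow_succ]; ring
  have hd0 : (0 : ℝ) < (n : ℝ) + 1 := by positivity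
  have hd1 : (1 : ℝ) ≤ (n : ℝ) + 1 := by linarith [Nat.cast_nonneg (α := ℝ) n]
  obtain ⟨M1, h1⟩ := hPOT (n + 1) (by omega) A hA2 (1 / (2 * ((n : ℝ) + 1) ^ 10)) (by positivity)
  obtain ⟨M2, h2⟩ := hSTR (n + 1) hd2 A hA2
  obtain ⟨M3, h3⟩ := hZE (n + 1) hd2 A hA2 1 one_pos
  obtain ⟨M4, h4⟩ := hETA (n + 1) hd2 A hA2 1 one_pos
  obtain ⟨M5, h5⟩ := exists_nat_ge (CT * ((n + 1 : ℕ) : ℝ))
  set M := M1 + M2 + M3 + M4 + M5 + (n + 1) with hMdef
  have hM1 : 1 ≤ M := by omega
  have hM0 : (0 : ℝ) < M := by exact_mod_cast hM1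
  obtain ⟨P, hP⟩ := h1 M (by omega)
  have hδ : 1 / (2 * ((n : ℝ) + 1) ^ 10) ≤ 1 / (2 * ((n + 1 : ℕ) : ℝ)) := by
    apply one_div_le_one_div_of_le
    · positivity
    · push_cast
      have : ((n : ℝ) + 1) ^ 1 ≤ ((n : ℝ) + 1) ^ 10 := pow_le_pow_right₀ hd1 (by norm_num)
      rw [pow_one] at this
      linarith
  have hP2 : P.Bal M (1 / (2 * ((n + 1 : ℕ) : ℝ))) := Bal_mono P hδ hP
  have hstr := h2 M (by omega) P hP2
  have hze := h3 M (by omega) P hP2
  have heta := h4 M (by omega) P hP2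
  have hMT : CT * ((n + 1 : ℕ) : ℝ) ≤ M := by
    refine h5.trans ?_
    have : M5 ≤ M := by omega
    exact_mod_cast this
  obtain ⟨ht1, ht2⟩ := hTAIL (n + 1) (by omega) A hA2 M hMT P hP2
  have htail := tail_bd P CT ht1 ht2
  -- seeds
  set N := 2 * M ^ (n + 1) with hN
  have e : Fin N ≃ Seed n M := by
    have : Fintype.card (Fin N) = Fintype.card (Seed n M) := by
      rw [Fintype.card_fin, card_seed]
    exact Fintype.equivOfCardEq this
  have hNpos : 0 < N := by positivity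
  have hN0 : (0 : ℝ) < N := by exact_mod_cast hNpos
  have htot : (2 * (M : ℝ)) ^ (n + 1) = 2 ^ n * N := tot e
  have hGN : (0 : ℝ) < 2 ^ n * N := by positivity
  have hsq1 : 1 ≤ Real.sqrt ((n : ℝ) + 1) := by
    rw [Real.one_le_sqrt]
    exact hd1
  -- thresholds
  have hthr : ∀ c : ℕ, ∃ u : ℝ, (4 : ℝ) ^ c ≤ u ∧ u ≤ 2 * 4 ^ c ∧ (4 : ℝ) ^ c * Str P M u ≤
      ((CE + CZ + 2) * Real.sqrt ((n : ℝ) + 1)) * (2 * M) ^ (n + 1) := by
    intro c
    have hU : (1 : ℝ) ≤ 4 ^ c := one_le_pow₀ (by norm_num)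
    obtain ⟨u, a1, a2, a3⟩ := thr_bd hTHR P (4 ^ c) _ _ (by positivity) (heta (4 ^ c) hU)
      (hze (4 ^ c) hU)
    refine ⟨u, a1, a2, a3.trans ?_⟩
    rw [← add_mul]
    apply mul_le_mul_of_nonneg_right _ (by positivity)
    have b1 : Real.exp (-(4 : ℝ) ^ c / 16) ≤ 1 := by
      rw [Real.exp_le_one_iff]
      have : (0 : ℝ) < 4 ^ c := by positivity
      linarith
    have b2 : (0 : ℝ) < Real.exp (-(4 : ℝ) ^ c / 16) := Real.exp_pos _
    push_cast
    have b3 : CE * Real.sqrt ((n : ℝ) + 1) * Real.exp (-(4 : ℝ) ^ c / 16) ≤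
        CE * Real.sqrt ((n : ℝ) + 1) := by
      have : 0 ≤ CE * Real.sqrt ((n : ℝ) + 1) := by positivity
      nlinarith
    have b4 : CZ * Real.sqrt ((n : ℝ) + 1) * Real.exp (-(4 : ℝ) ^ c / 16) ≤
        CZ * Real.sqrt ((n : ℝ) + 1) := by
      have : 0 ≤ CZ * Real.sqrt ((n : ℝ) + 1) := by positivity
      nlinarith
    linarith
  choose u hu4 hu2 huS using hthr
  have hu : Monotone u := by
    apply monotone_nat_of_le_succ
    intro c
    have a1 := hu2 c
    have a2 := hu4 (c + 1)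
    rw [pow_succ] at a2
    have : (0 : ℝ) < 4 ^ c := by positivity
    linarith
  obtain ⟨cm, hcm1, hcm2, hcm3⟩ := exists_cm n
  refine ⟨N, fun s ω => P.T (X e s ω), fun s ω => clx P M u cm (X e s ω), cm, ?_⟩
  have hlog : 0 ≤ Real.log ((n : ℝ) + 2) := Real.log_nonneg (by linarith)
  refine ⟨hNpos, hcm1, ?_, ?_, ?_, ?_, ?_, ?_, ?_, ?_, ?_, ?_⟩
  · -- cmle
    refine hcm3.trans ?_
    nlinarith
  · -- mem
    intro s ω
    exact P.mem _
  · -- mass
    intro a ha
    have hb := hP a ha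
    have hc : (univ.filter (fun q : Cube n × Fin N => P.T (X e q.1 q.2) = a)).card =
        (P.cell M a).card := by
      unfold Pot.cell
      exact card_X e (fun x => P.T x = a) _ (fun q => Iff.rfl)
    rw [hc]
    have hNN : (N : ℝ) = 2 * (M : ℝ) ^ (n + 1) := by
      rw [hN]
      push_cast
      rfl
    rw [← hNN] at hb
    have h6 : 1 / (2 * ((n : ℝ) + 1) ^ 10) * N ≤ N / ((n : ℝ) + 1) ^ 10 := by
      rw [div_mul_eq_mul_div, one_mul]
      apply div_le_div_of_nonneg_left hN0.le (by positivity)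
      have : (0 : ℝ) < ((n : ℝ) + 1) ^ 10 := by positivity
      linarith
    rw [abs_le]
    constructor <;> nlinarith [hb.1, hb.2]
  · -- str
    have := str_bd P e _ hstr
    refine this.trans ?_
    rw [htot]
    push_cast
    have h6 : CS ≤ C := by linarith
    have h7 : 0 ≤ ((n : ℝ) + 1) * (2 ^ n * N) := by positivity
    nlinarith
  · -- strad
    have h6 := strad_bd P e u hu cm _ (by positivity) huS
    refine h6.trans ?_
    rw [htot]
    have h7 : 4 * (CE + CZ + 2) ≤ C := by linarith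
    have h8 : 0 ≤ Real.sqrt ((n : ℝ) + 1) * (2 ^ n * N) := by positivity
    nlinarith
  · -- clm
    have h6 := clm_bd P e u hu cm hu4 CT hCT1 htail
    refine h6.trans ?_
    rw [htot]
    have h7 : 128 * CT ≤ C := by linarith
    nlinarith
  · -- bad
    have h6 := bad_bd P e u hu cm hcm1 hu4 CT hCT1 htail hcm2
    refine h6.trans ?_
    rw [htot]
    apply div_le_div_of_nonneg_right _ (by positivity)
    have h7 : 2 * CT ≤ C := by linarith
    nlinarith
  · -- disp
    have h6 := disp_bd hSMALL P hM1 (by omega) e u hu hu2 cm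
    have h7 : (univ.filter (fun q : Cube n × Fin N => clx P M u cm (X e q.1 q.2) < cm ∧
      C * 2 ^ (clx P M u cm (X e q.1 q.2)) * Real.sqrt (n + 1) <
        (disp q.1 (P.T (X e q.1 q.2)) : ℝ))).card ≤
        (univ.filter (fun q : Cube n × Fin N => clx P M u cm (X e q.1 q.2) < cm ∧
      12 * 2 ^ (clx P M u cm (X e q.1 q.2)) * Real.sqrt (n + 1) <
        (disp q.1 (P.T (X e q.1 q.2)) : ℝ))).card := by
      apply card_le_card
      intro q hq
      rw [mem_filter] at hq ⊢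
      refine ⟨hq.1, hq.2.1, lt_of_le_of_lt ?_ hq.2.2⟩
      apply mul_le_mul_of_nonneg_right _ (by positivity)
      apply mul_le_mul_of_nonneg_right _ (by positivity)
      linarith
    have h8 : ((univ.filter (fun q : Cube n × Fin N => clx P M u cm (X e q.1 q.2) < cm ∧
      C * 2 ^ (clx P M u cm (X e q.1 q.2)) * Real.sqrt (n + 1) <
        (disp q.1 (P.T (X e q.1 q.2)) : ℝ))).card : ℝ) ≤ 2 * (2 * M) ^ (n + 1) *
          (1 / 2) ^ (Nat.sqrt (n + 1)) := by
      refine le_trans ?_ h6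
      exact_mod_cast h7
    refine h8.trans ?_
    rw [htot]
    apply mul_le_mul_of_nonneg_right _ (by positivity)
    nlinarith
  · -- col1
    intro c hc W j
    have h6 := col1_bd hCOL1 P hM1 e u hu hu2 cm c hc W j
    refine h6.trans ?_
    rw [htot]
    apply mul_le_mul_of_nonneg_right _ hGN.le
    apply div_le_div_of_nonneg_right _ (by positivity)
    apply pow_le_pow_left₀ (by positivity)
    apply mul_le_mul_of_nonneg_right _ (by positivity)
    apply mul_le_mul_of_nonneg_right _ (by positivity)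
    linarith
  · -- col2
    intro W j
    have h6 := col2_bd hCOL2 P hM1 e u hu hu2 cm W j
    refine h6.trans ?_
    have h7 : 2 * ((2 * (M : ℝ)) ^ (n + 1) * (M : ℝ) ^ (n + 1)) = 2 ^ n * (N : ℝ) ^ 2 := by
      rw [htot]
      have hNN : (N : ℝ) = 2 * (M : ℝ) ^ (n + 1) := by
        rw [hN]
        push_cast
        rfl
      rw [hNN]
      ring
    rw [h7]
    apply mul_le_mul_of_nonneg_right _ (by positivity)
    apply div_le_div_of_nonneg_right _ (by positivity)
    apply pow_le_pow_left₀ (by positivity)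
    apply mul_le_mul_of_nonneg_right _ (by positivity)
    apply mul_le_mul_of_nonneg_right _ (by positivity)
    linarith

end Pool.Agent.K1H25.ST
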